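import Pool.Agent.Q160.GL.Sum
import Pool.Agent.H364R2.EC_SwTail

/-!
# Jacobi symbols over sets determined by the largest prime factor
-/

set_option autoImplicit false

open Finset

namespace Pool.Agent.Q160.GL

open Pool.Agent.Helper919 (XX)
open Pool.Agent.H364R2.EC (T T_bound)

/-- the Jacobi symbol `(D / n)`, real valued -/
noncomputable def jc (D : ℤ) (n : ℕ) : ℝ := ((jacobiSym D n : ℤ) : ℝ)

lemma jc_mul (D : ℤ) (m n : ℕ) (hm : m ≠ 0) (hn : n ≠ 0) : jc D (m * n) = jc D m * jc D n := by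
  unfold jc
  rw [jacobiSym.mul_right' D hm hn]
  push_cast
  rfl

lemma jc_abs (D : ℤ) (n : ℕ) : |jc D n| ≤ 1 := by
  unfold jc
  rcases jacobiSym.trichotomy D n with h | h | h <;> rw [h] <;> norm_num

lemma PT_T (D : ℤ) (t : ℕ) : |PT (jc D) t - T D t| ≤ 1 := by
  classical
  unfold PT T
  rw [← Finset.sum_sub_distrib]
  have h1 : ∀ p ∈ (Icc 1 t).filter Nat.Prime, jc D p - XX D p = if p = 2 then jc D 2 else 0 := by
    intro p hp
    have hpp := (Finset.mem_filter.1 hp).2
    rw [Pool.Agent.Helper919.XX_apply]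
    by_cases h2 : p = 2
    · subst h2
      rw [if_neg (by decide), if_pos rfl, sub_zero]
    · rw [if_pos (hpp.odd_of_ne_two h2), if_neg h2]
      unfold jc
      rw [sub_self]
  rw [Finset.sum_congr rfl h1, Finset.sum_ite_eq']
  split_ifs
  · exact jc_abs D 2
  · rw [abs_zero]; norm_num

theorem primeSmall (D : ℤ) (hD : ¬ IsSquare D) : PrimeSmall (jc D) := by
  intro U
  have hD0 : D ≠ 0 := by rintro rfl; exact hD ⟨0, rfl⟩
  obtain ⟨y0, hsw⟩ := Pool.Agent.H442R2.EHI.Four8.sw U 1
  obtain ⟨y1, hy1⟩ := Filter.eventually_atTop.1 ((Real.tendsto_log_atTop.comp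
    (tendsto_natCast_atTop_atTop (R := ℝ))).eventually_ge_atTop ((4 * D.natAbs : ℕ) : ℝ))
  set q := 4 * D.natAbs with hq
  have hq1 : 1 ≤ q := by have := Int.natAbs_pos.2 hD0; omega
  set y2 : ℕ := max (max y0 y1) 3 with hy2
  have hbig : ∀ y : ℕ, y2 ≤ y → |PT (jc D) y| ≤ (q + 1) * (y / Real.log y ^ U) + 1 := by
    intro y hy
    have g0 : y0 ≤ y := ((le_max_left _ _).trans (le_max_left _ _)).trans hy
    have g1 : y1 ≤ y := ((le_max_right _ _).trans (le_max_left _ _)).trans hy
    have g3 : 3 ≤ y := (le_max_right _ _).trans hy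
    have hl := one_le_log g3
    have hnn : 0 ≤ (y : ℝ) / Real.log y ^ U := by positivity
    have h1 := T_bound D hD y U (fun c hc hcop => hsw y g0 q hq1 (by
      rw [pow_one]; exact hy1 y g1) c hc hcop) hnn
    have h2 := PT_T D y
    have h3 : |PT (jc D) y| ≤ |PT (jc D) y - T D y| + |T D y| := by
      have := abs_add_le (PT (jc D) y - T D y) (T D y)
      simpa using this
    rw [← hq] at h1
    nlinarith
  have htriv : ∀ t : ℕ, |PT (jc D) t| ≤ t := by
    intro t
    unfold PT
    refine (Finset.abs_sum_le_sum_abs _ _).trans ((Finset.sum_le_sum fun x _ => jc_abs D x).trans ?_)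
    rw [Finset.sum_const, nsmul_eq_mul, mul_one]
    have := Finset.card_filter_le (Icc 1 t) Nat.Prime
    rw [Nat.card_Icc, Nat.add_sub_cancel] at this
    exact_mod_cast this
  refine ⟨2 ^ U * U.factorial + ((q + 1) * 2 ^ U + U.factorial) +
    y2 * (2 * Real.log y2) ^ U, by
      have : (0 : ℝ) ≤ Real.log y2 := Real.log_natCast_nonneg _
      positivity, fun V hV t ht => ?_⟩
  have hl := one_le_log hV
  have hl0 : 0 < Real.log V := by linarith
  have hV0 : (0 : ℝ) < V := by exact_mod_cast (by omega : 0 < V)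
  have hly2 : (0 : ℝ) ≤ Real.log y2 := Real.log_natCast_nonneg _
  have hR : 0 ≤ (V : ℝ) / Real.log V ^ U := by positivity
  have hb1 : 0 ≤ (2 ^ U * U.factorial : ℝ) * (V / Real.log V ^ U) := by positivity
  have hb2 : 0 ≤ (((q : ℝ) + 1) * 2 ^ U + U.factorial) * (V / Real.log V ^ U) := by positivity
  have hb3 : 0 ≤ ((y2 : ℝ) * (2 * Real.log y2) ^ U) * (V / Real.log V ^ U) := by positivity
  have hexp : ∀ a b c : ℝ, (a + b + c) * (V / Real.log V ^ U) = a * (V / Real.log V ^ U) +
    b * (V / Real.log V ^ U) + c * (V / Real.log V ^ U) := fun a b c => by ring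
  rw [hexp]
  by_cases h1 : t * t ≤ V
  · -- small `t`
    have h2 : (t : ℝ) ≤ Real.sqrt V := Real.le_sqrt_of_sq_le (by
      rw [sq]; exact_mod_cast h1)
    have h3 : Real.sqrt V ≤ (2 ^ U * U.factorial : ℝ) * (V / Real.log V ^ U) := by
      rw [mul_div_assoc', le_div_iff₀ (by positivity)]
      exact sqrt_log U (by omega)
    have h4 := htriv t
    linarith
  · push Not at h1
    have ht0 : 0 < t := by
      rcases Nat.eq_zero_or_pos t with h | h
      · rw [h] at h1; omega
      · exact h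
    have ht0R : (0 : ℝ) < t := by exact_mod_cast ht0
    have h2 : Real.log V ≤ 2 * Real.log t := by
      have e3 : (V : ℝ) ≤ t * t := by exact_mod_cast h1.le
      have e4 := Real.log_le_log hV0 e3
      rw [Real.log_mul ht0R.ne' ht0R.ne'] at e4
      linarith
    have htV : (t : ℝ) ≤ V := by exact_mod_cast ht
    by_cases h3 : y2 ≤ t
    · have h4 := hbig t h3
      have h5 : (t : ℝ) / Real.log t ^ U ≤ 2 ^ U * (V / Real.log V ^ U) := by
        have hlt : 0 < Real.log t := by linarith
        have h6 : Real.log V ^ U ≤ 2 ^ U * Real.log t ^ U := by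
          rw [← mul_pow]
          exact pow_le_pow_left₀ hl0.le h2 U
        rw [div_le_iff₀ (by positivity)]
        calc (t : ℝ) ≤ V := htV
          _ = V / Real.log V ^ U * Real.log V ^ U := by field_simp
          _ ≤ V / Real.log V ^ U * (2 ^ U * Real.log t ^ U) :=
            mul_le_mul_of_nonneg_left h6 hR
          _ = _ := by ring
      have h7 : (1 : ℝ) ≤ U.factorial * (V / Real.log V ^ U) := by
        rw [mul_div_assoc', le_div_iff₀ (by positivity), one_mul]
        exact log_pow_le U (by omega)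
      have h8 : ((q : ℝ) + 1) * (t / Real.log t ^ U) ≤ ((q : ℝ) + 1) * (2 ^ U * (V / Real.log V ^ U)) :=
        mul_le_mul_of_nonneg_left h5 (by positivity)
      have h9 : ((q : ℝ) + 1) * (2 ^ U * (V / Real.log V ^ U)) + U.factorial * (V / Real.log V ^ U) =
        (((q : ℝ) + 1) * 2 ^ U + U.factorial) * (V / Real.log V ^ U) := by ring
      linarith
    · push Not at h3
      have h4 := htriv t
      have h5 : (t : ℝ) ≤ y2 := by exact_mod_cast h3.le
      have h6 : Real.log V ≤ 2 * Real.log y2 := by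
        have := Real.log_le_log ht0R h5
        linarith
      have h7 : (1 : ℝ) ≤ (2 * Real.log y2) ^ U * (V / Real.log V ^ U) := by
        rw [mul_div_assoc', le_div_iff₀ (by positivity), one_mul]
        have h8 : Real.log V ^ U ≤ (2 * Real.log y2) ^ U := pow_le_pow_left₀ hl0.le h6 U
        have h9 : (1 : ℝ) ≤ V := by exact_mod_cast (by omega : 1 ≤ V)
        calc Real.log V ^ U ≤ (2 * Real.log y2) ^ U := h8
          _ ≤ (2 * Real.log y2) ^ U * V := le_mul_of_one_le_right (by positivity) h9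
      have h8 : (y2 : ℝ) ≤ (y2 : ℝ) * (2 * Real.log y2) ^ U * (V / Real.log V ^ U) := by
        rw [mul_assoc]
        exact le_mul_of_one_le_right (Nat.cast_nonneg _) h7
      linarith

open Classical in
/-- the sum of the Jacobi symbols -/
theorem jac_sum (D : ℤ) (hD : ¬ IsSquare D) (Q B : ℕ) : ∃ C : ℝ, 0 ≤ C ∧
    ∀ X : ℕ, 3 ≤ X → ∀ Y ≤ X, ∀ j : ℕ, 1 ≤ j → j ≤ Q → ∀ I : ℕ → Set ℕ,
      (∀ k, (I k).OrdConnected) →
      |∑ x ∈ (Icc 1 Y).filter (fun x => Squarefree x ∧ x.Coprime Q ∧ InS I (j * x)), jc D x| ≤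
        C * (X / Real.log X ^ B) :=
  lpf_sum (jc D) (jc_mul D) (jc_abs D) (primeSmall D hD) Q B

end Pool.Agent.Q160.GL
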