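import Pool.Agent.Q160.GL.Wsum
import Pool.Agent.Y19.QT.Gold

/-!
# The distribution of the analytic ranks over sets determined by the largest prime factor
-/

set_option autoImplicit false

open Finset

namespace Pool.Agent.Q160.GL

open Pool.Agent.Y19.QT

open Classical in
/-- the number of `d` of a set with order of vanishing at most `R` and of parity `e` -/
noncomputable def cnt (F : ℤ → ℂ → ℂ) (e : ℕ) (R : ℝ) (S : Finset ℤ) : ℕ :=
  (S.filter fun d => ∃ r : ℕ, r % 2 = e ∧ (r : ℝ) ≤ R ∧ analyticOrderAt (F d) 1 = (r : ℕ∞)).card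

open Classical in
theorem law_of {a b : ℤ} (hab : 4 * a ^ 3 + 27 * b ^ 2 ≠ 0) (hT : HasTwists a b)
    (hS : Pool.Agent.Y763.QTPAR.HasSgn a b) (F : ℤ → ℂ → ℂ)
    (hF : ∀ d : ℤ, Squarefree d → IsLFun (a * d ^ 2) (b * d ^ 3) (F d)) (B : ℕ) :
    ∃ C K : ℝ, ∀ (X : ℕ) (R : ℝ), 3 ≤ X → K * Real.log (Real.log X) ≤ R →
      ∀ I : ℕ → Set ℕ, (∀ k, (I k).OrdConnected) → ∀ e < 2,
      |(cnt F e R ((sqf X).filter (fun d => InS I d.natAbs)) : ℝ) -
        ((sqf X).filter (fun d => InS I d.natAbs)).card / 2| ≤ C * (X / Real.log X ^ B) := by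
  obtain ⟨C0, c0, A0, hc0, hmom⟩ := expMom_of s_T12 a b hab hT
  obtain ⟨Q, lam, T, hTs, hQ, hlam⟩ := hS
  obtain ⟨C1, hC1, hsum⟩ := sum_w_set T hTs B
  obtain ⟨htop, hexp⟩ := hmom F hF
  set o : ℤ → ℕ := fun d => (analyticOrderAt (F d) 1).toNat with ho
  have hoe : ∀ d : ℤ, Squarefree d → ∀ r : ℕ, analyticOrderAt (F d) 1 = (r : ℕ∞) ↔ o d = r := by
    intro d hd r
    rw [ho]
    constructor
    · intro h
      simp only [h, ENat.toNat_coe]
    · intro h
      simp only at h
      rw [← h, ENat.coe_toNat (htop d hd)]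
  -- the tail
  have htail : ∀ (X : ℕ) (t : ℝ), 3 ≤ X → (((sqf X).filter fun d => t ≤ o d).card : ℝ) ≤
      max C0 0 * X * Real.log X ^ A0 * Real.exp (-(c0 * t)) := by
    intro X t hX
    have hl := Y19.QT.one_le_log hX
    have h1 : (((sqf X).filter fun d => t ≤ o d).card : ℝ) * Real.exp (c0 * t) ≤
        C0 * X * Real.log X ^ A0 := by
      refine le_trans ?_ (hexp X hX)
      rw [← nsmul_eq_mul, ← Finset.sum_const]
      refine le_trans (Finset.sum_le_sum fun d hd => ?_)
        (Finset.sum_le_sum_of_subset_of_nonneg (Finset.filter_subset (fun d => t ≤ (o d : ℝ)) _)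
          fun _ _ _ => (Real.exp_pos _).le)
      apply Real.exp_le_exp.2
      apply mul_le_mul_of_nonneg_left _ hc0.le
      have h2 : t ≤ o d := (Finset.mem_filter.1 hd).2
      have h3 : (0 : ℝ) ≤ Module.finrank ℤ (EQ (a * d ^ 2) (b * d ^ 3)) := Nat.cast_nonneg _
      have h4 : ((analyticOrderAt (F d) 1).toNat : ℝ) = o d := rfl
      linarith
    have h5 : (0 : ℝ) < Real.exp (c0 * t) := Real.exp_pos _
    have h6 : C0 * X * Real.log X ^ A0 ≤ max C0 0 * X * Real.log X ^ A0 := by
      gcongr
      exact le_max_left _ _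
    calc (((sqf X).filter fun d => t ≤ o d).card : ℝ) =
          (((sqf X).filter fun d => t ≤ o d).card : ℝ) * Real.exp (c0 * t) *
            Real.exp (-(c0 * t)) := by
          rw [mul_assoc, ← Real.exp_add, add_neg_cancel, Real.exp_zero, mul_one]
      _ ≤ _ := mul_le_mul_of_nonneg_right (h1.trans h6) (Real.exp_pos _).le
  refine ⟨max C0 0 + C1, (A0 + B) / c0, fun X R hX hR I hI e he => ?_⟩
  have hl := Y19.QT.one_le_log hX
  have hl0 : 0 < Real.log X := by linarith
  have hll : 0 ≤ Real.log (Real.log X) := Real.log_nonneg hl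
  have hX0 : (0 : ℝ) < X := by exact_mod_cast (by omega : 0 < X)
  set S := (sqf X).filter (fun d => InS I d.natAbs) with hSdef
  have hSsub : ∀ d ∈ S, Squarefree d := fun d hd => (mem_sqf.1 (Finset.mem_filter.1 hd).1).2
  -- the parities
  have hsplit : |((S.filter fun d => o d % 2 = e).card : ℝ) - S.card / 2| ≤
        C1 * (X / Real.log X ^ B) / 2 := by
    have h1 := hsum X hX I hI
    have h2 : ((S.filter fun d => o d % 2 = 0).card : ℝ) +
        (S.filter fun d => o d % 2 = 1).card = S.card := by
      have h3 := Finset.card_filter_add_card_filter_not (s := S) (fun d => o d % 2 = 0)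
      have h4 : S.filter (fun d => ¬ o d % 2 = 0) = S.filter (fun d => o d % 2 = 1) := by
        apply Finset.filter_congr
        intro d _
        omega
      rw [h4] at h3
      exact_mod_cast h3
    have h5 : ∑ d ∈ S, T.w d =
        ((S.filter fun d => o d % 2 = 0).card : ℝ) - (S.filter fun d => o d % 2 = 1).card := by
      have e1 : ∀ d ∈ S, T.w d =
          (if o d % 2 = 0 then (1 : ℝ) else 0) - (if o d % 2 = 1 then (1 : ℝ) else 0) := by
        intro d hd
        rw [← Pool.Agent.Y763.QTPAR.parity_F hab T hQ hlam (hSsub d hd) (hF d (hSsub d hd))]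
        rcases Nat.mod_two_eq_zero_or_one (o d) with h | h
        · have h6 : Even (analyticOrderAt (F d) 1).toNat := Nat.even_iff.2 h
          rw [h6.neg_one_pow, if_pos h, if_neg (by omega)]
          norm_num
        · have h6 : Odd (analyticOrderAt (F d) 1).toNat := Nat.odd_iff.2 h
          rw [h6.neg_one_pow, if_neg (by omega), if_pos h]
          norm_num
      rw [Finset.sum_congr rfl e1, Finset.sum_sub_distrib, Finset.sum_boole,
        Finset.sum_boole]
    rw [h5] at h1
    have h8 := abs_le.1 h1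
    interval_cases e
    · rw [abs_le]
      constructor <;> linarith
    · rw [abs_le]
      constructor <;> linarith
  -- the large orders
  have hcnt : (cnt F e R S : ℝ) = ((S.filter fun d => o d % 2 = e ∧ (o d : ℝ) ≤ R).card : ℝ) := by
    unfold cnt
    congr 2
    apply Finset.filter_congr
    intro d hd
    constructor
    · rintro ⟨r, h1, h2, h3⟩
      rw [hoe d (hSsub d hd)] at h3
      rw [h3]
      exact ⟨h1, h2⟩
    · rintro ⟨h1, h2⟩
      exact ⟨o d, h1, h2, (hoe d (hSsub d hd) _).2 rfl⟩
  have hdiff : |(cnt F e R S : ℝ) - (S.filter fun d => o d % 2 = e).card| ≤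
      ((sqf X).filter fun d => R ≤ o d).card := by
    rw [hcnt]
    have h1 : (S.filter fun d => o d % 2 = e ∧ (o d : ℝ) ≤ R).card ≤
        (S.filter fun d => o d % 2 = e).card :=
      Finset.card_le_card fun d hd => Finset.mem_filter.2
        ⟨(Finset.mem_filter.1 hd).1, (Finset.mem_filter.1 hd).2.1⟩
    have h2 : (S.filter fun d => o d % 2 = e).card ≤
        (S.filter fun d => o d % 2 = e ∧ (o d : ℝ) ≤ R).card +
          ((sqf X).filter fun d => R ≤ (o d : ℝ)).card := by
      refine le_trans (Finset.card_le_card fun d hd => ?_) (Finset.card_union_le _ _)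
      have hd1 := (Finset.mem_filter.1 hd).1
      have hd2 := (Finset.mem_filter.1 hd).2
      rcases le_or_gt (o d : ℝ) R with h | h
      · exact Finset.mem_union_left _ (Finset.mem_filter.2 ⟨hd1, hd2, h⟩)
      · exact Finset.mem_union_right _
          (Finset.mem_filter.2 ⟨(Finset.mem_filter.1 hd1).1, h.le⟩)
    have h1' : ((S.filter fun d => o d % 2 = e ∧ (o d : ℝ) ≤ R).card : ℝ) ≤
        (S.filter fun d => o d % 2 = e).card := by exact_mod_cast h1
    have h2' : ((S.filter fun d => o d % 2 = e).card : ℝ) ≤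
        (S.filter fun d => o d % 2 = e ∧ (o d : ℝ) ≤ R).card +
          ((sqf X).filter fun d => R ≤ (o d : ℝ)).card := by exact_mod_cast h2
    rw [abs_le]
    constructor <;> linarith
  have h3 : (((sqf X).filter fun d => R ≤ (o d : ℝ)).card : ℝ) ≤
      max C0 0 * (X / Real.log X ^ B) := by
    refine (htail X R hX).trans ?_
    have h5 : Real.exp (-(c0 * R)) ≤ (Real.log X ^ (A0 + B))⁻¹ := by
      have h6 : Real.log X ^ (A0 + B) = Real.exp ((A0 + B : ℕ) * Real.log (Real.log X)) := by
        rw [Real.exp_nat_mul, Real.exp_log hl0]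
      rw [h6, ← Real.exp_neg]
      apply Real.exp_le_exp.2
      have h7 : c0 * ((A0 + B) / c0 * Real.log (Real.log X)) ≤ c0 * R :=
        mul_le_mul_of_nonneg_left hR hc0.le
      have h8 : c0 * ((A0 + B) / c0 * Real.log (Real.log X)) =
          (A0 + B : ℕ) * Real.log (Real.log X) := by
        push_cast
        field_simp
      linarith
    calc max C0 0 * X * Real.log X ^ A0 * Real.exp (-(c0 * R)) ≤
          max C0 0 * X * Real.log X ^ A0 * (Real.log X ^ (A0 + B))⁻¹ :=
          mul_le_mul_of_nonneg_left h5 (by positivity)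
      _ = max C0 0 * (X / Real.log X ^ B) := by
          rw [pow_add]
          field_simp
  have h15 : |(cnt F e R S : ℝ) - S.card / 2| ≤
      |(cnt F e R S : ℝ) - (S.filter fun d => o d % 2 = e).card| +
      |((S.filter fun d => o d % 2 = e).card : ℝ) - S.card / 2| := by
    have := abs_add_le ((cnt F e R S : ℝ) - (S.filter fun d => o d % 2 = e).card)
      (((S.filter fun d => o d % 2 = e).card : ℝ) - S.card / 2)
    simpa using this
  have h16 : 0 ≤ C1 * (X / Real.log X ^ B) := by positivity
  rw [add_mul]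
  linarith

end Pool.Agent.Q160.GL
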