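import Mathlib

/-!
# Sums of a character over integers restricted by conditions on the largest prime factor

`lp n` is the largest prime factor of `n`. For a completely multiplicative function with small sums over
primes the sums over the squarefree numbers `x ≤ Y` such that the largest prime factor `p` of `j x`
lies in an interval `I (j x / p)`, which is an arbitrary function of the cofactor, are small.
-/

set_option autoImplicit false

open Finset

namespace Pool.Agent.Q160.GL

/-- the largest prime factor -/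
def lp (n : ℕ) : ℕ := n.primeFactors.sup id

lemma le_lp {n p : ℕ} (h : p ∈ n.primeFactors) : p ≤ lp n := Finset.le_sup (f := id) h

lemma lp_mem {n : ℕ} (h : 1 < n) : lp n ∈ n.primeFactors := by
  have hne : n.primeFactors.Nonempty := Nat.nonempty_primeFactors.2 h
  obtain ⟨p, hp, he⟩ := Finset.exists_mem_eq_sup n.primeFactors hne id
  unfold lp
  rw [he]
  exact hp

lemma lp_le {n b : ℕ} (h : ∀ p ∈ n.primeFactors, p ≤ b) : lp n ≤ b := Finset.sup_le h

lemma lp_zero : lp 0 = 0 := by simp [lp]

lemma lp_one : lp 1 = 0 := by simp [lp]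

lemma one_lt_of_lp {n Q : ℕ} (h : Q < lp n) : 1 < n := by
  by_contra hn
  have : n = 0 ∨ n = 1 := by omega
  rcases this with rfl | rfl
  · rw [lp_zero] at h; omega
  · rw [lp_one] at h; omega

lemma lp_mul {m p : ℕ} (hm : m ≠ 0) (hp : p.Prime) (h : ∀ q ∈ m.primeFactors, q ≤ p) :
    lp (m * p) = p := by
  have h1 : (m * p).primeFactors = m.primeFactors ∪ {p} := by
    rw [Nat.primeFactors_mul hm hp.ne_zero, hp.primeFactors]
  apply le_antisymm
  · refine lp_le fun q hq => ?_
    rw [h1, Finset.mem_union, Finset.mem_singleton] at hq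
    rcases hq with hq | rfl
    · exact h q hq
    · exact le_rfl
  · refine le_lp ?_
    rw [h1]
    exact Finset.mem_union_right _ (Finset.mem_singleton_self p)

/-- the largest prime factor of `n` lies in the set which belongs to the cofactor -/
def InS (I : ℕ → Set ℕ) (n : ℕ) : Prop := lp n ∈ I (n / lp n)

/-! ### the count of smooth numbers -/

lemma sum_two_pow (X : ℕ) :
    ∑ x ∈ (Icc 1 X), (2 : ℝ) ^ x.primeFactors.card ≤ X * (1 + Real.log X) := by
  have h1 : ∀ x ∈ Icc 1 X, (2 : ℝ) ^ x.primeFactors.card ≤ (x.divisors.card : ℝ) := by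
    intro x hx
    have hx0 : x ≠ 0 := by have := (Finset.mem_Icc.1 hx).1; omega
    rw [Nat.card_divisors hx0]
    push_cast
    rw [← Finset.prod_const]
    refine Finset.prod_le_prod (fun _ _ => by norm_num) fun p hp => ?_
    have h2 : 1 ≤ x.factorization p :=
      (Nat.prime_of_mem_primeFactors hp).factorization_pos_of_dvd hx0 (Nat.dvd_of_mem_primeFactors hp)
    have h3 : (1 : ℝ) ≤ x.factorization p := by exact_mod_cast h2
    linarith
  refine (Finset.sum_le_sum h1).trans ?_
  have h2 : ∑ x ∈ Icc 1 X, x.divisors.card = ∑ d ∈ Icc 1 X, X / d := by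
    have e1 : ∀ x ∈ Icc 1 X, x.divisors.card = ∑ d ∈ Icc 1 X, if d ∣ x then 1 else 0 := by
      intro x hx
      rw [Finset.mem_Icc] at hx
      rw [Finset.sum_boole, Nat.cast_id]
      congr 1
      ext d
      rw [Nat.mem_divisors, Finset.mem_filter, Finset.mem_Icc]
      constructor
      · rintro ⟨h, -⟩
        exact ⟨⟨Nat.pos_of_dvd_of_pos h (by omega), (Nat.le_of_dvd (by omega) h).trans hx.2⟩, h⟩
      · rintro ⟨-, h⟩
        exact ⟨h, by omega⟩
    rw [Finset.sum_congr rfl e1, Finset.sum_comm]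
    refine Finset.sum_congr rfl fun d hd => ?_
    rw [Finset.sum_boole, Nat.cast_id, ← Nat.Ioc_filter_dvd_card_eq_div]
    congr 1
  have h3 : (∑ x ∈ Icc 1 X, (x.divisors.card : ℝ)) = ∑ d ∈ Icc 1 X, ((X / d : ℕ) : ℝ) := by
    exact_mod_cast congrArg (Nat.cast : ℕ → ℝ) h2
  rw [h3]
  have h4 : ∑ d ∈ Icc 1 X, ((X / d : ℕ) : ℝ) ≤ ∑ d ∈ Icc 1 X, (X : ℝ) * (d : ℝ)⁻¹ := by
    refine Finset.sum_le_sum fun d _ => ?_
    rw [← div_eq_mul_inv]
    exact Nat.cast_div_le
  refine h4.trans ?_
  rw [← Finset.mul_sum]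
  refine mul_le_mul_of_nonneg_left ?_ (Nat.cast_nonneg X)
  have h5 := harmonic_le_one_add_log X
  rw [harmonic_eq_sum_Icc] at h5
  push_cast at h5
  exact h5

lemma one_le_log {X : ℕ} (hX : 3 ≤ X) : 1 ≤ Real.log X := by
  rw [Real.le_log_iff_exp_le (by exact_mod_cast (by omega : 0 < X))]
  have h1 := Real.exp_one_lt_d9
  have h2 : (3 : ℝ) ≤ X := by exact_mod_cast hX
  linarith

/-- `(log X)^B ≤ B! X` -/
lemma log_pow_le (B : ℕ) {X : ℕ} (hX : 1 ≤ X) : Real.log X ^ B ≤ B.factorial * X := by
  have hX0 : (0 : ℝ) < X := by exact_mod_cast hX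
  have h1 := Real.pow_div_factorial_le_exp (Real.log X) (Real.log_natCast_nonneg X) B
  rw [Real.exp_log hX0, div_le_iff₀ (by positivity)] at h1
  linarith

/-- `√X (log X)^B ≤ 2^B B! X` -/
lemma sqrt_log (B : ℕ) {X : ℕ} (hX : 1 ≤ X) :
    Real.sqrt X * Real.log X ^ B ≤ (2 ^ B * B.factorial) * X := by
  have hX0 : (0 : ℝ) < X := by exact_mod_cast hX
  have hl := Real.log_natCast_nonneg X
  have h10 := Real.pow_div_factorial_le_exp (Real.log X / 2) (by positivity) B
  have h11 : Real.exp (Real.log X / 2) = Real.sqrt X := by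
    rw [Real.sqrt_eq_rpow, Real.rpow_def_of_pos hX0]
    ring_nf
  rw [h11, div_le_iff₀ (by positivity), div_pow, div_le_iff₀ (by positivity)] at h10
  have h12 := Real.mul_self_sqrt hX0.le
  have h13 := Real.sqrt_nonneg (X : ℝ)
  calc Real.sqrt X * Real.log X ^ B ≤ Real.sqrt X * (Real.sqrt X * B.factorial * 2 ^ B) :=
        mul_le_mul_of_nonneg_left h10 h13
    _ = (Real.sqrt X * Real.sqrt X) * (B.factorial * 2 ^ B) := by ring
    _ = _ := by rw [h12]; ring

/-- few squarefree numbers have no large prime factor -/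
lemma smooth_count (B : ℕ) : ∃ C : ℝ, 0 ≤ C ∧ ∀ X : ℕ, 3 ≤ X → ∀ z : ℕ,
    (z : ℝ) ≤ 2 * Real.exp (Real.sqrt (Real.log X)) →
    (((Icc 1 X).filter fun x => Squarefree x ∧ ∀ p ∈ x.primeFactors, p ≤ z).card : ℝ) ≤
      C * (X / Real.log X ^ B) := by
  classical
  set c : ℝ := Real.log 2 / 4 with hc
  have hc0 : 0 < c := by
    rw [hc]
    exact div_pos (Real.log_pos (by norm_num)) (by norm_num)
  set n : ℕ := 2 * (B + 1) with hn
  refine ⟨2 ^ B * B.factorial + 2 * n.factorial / c ^ n, by positivity, fun X hX z hz => ?_⟩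
  have hL1 := one_le_log hX
  set L : ℝ := Real.log X with hL
  have hL0 : 0 < L := by linarith
  have hX0 : (0 : ℝ) < X := by exact_mod_cast (by omega : 0 < X)
  have hs1 : 1 ≤ Real.sqrt L := Real.one_le_sqrt.2 hL1
  have hs0 : 0 < Real.sqrt L := by linarith
  have hss : Real.sqrt L * Real.sqrt L = L := Real.mul_self_sqrt hL0.le
  set S := (Icc 1 X).filter fun x => Squarefree x ∧ ∀ p ∈ x.primeFactors, p ≤ z with hS
  -- the small numbers
  have h1 : S ⊆ (Icc 1 (Nat.sqrt X)) ∪ S.filter (fun x => Nat.sqrt X < x) := by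
    intro x hx
    by_cases h : Nat.sqrt X < x
    · exact Finset.mem_union_right _ (Finset.mem_filter.2 ⟨hx, h⟩)
    · refine Finset.mem_union_left _ (Finset.mem_Icc.2 ⟨?_, by omega⟩)
      exact (Finset.mem_Icc.1 (Finset.mem_filter.1 hx).1).1
  have h2 : (S.card : ℝ) ≤ Real.sqrt X + (S.filter (fun x => Nat.sqrt X < x)).card := by
    have h3 := (Finset.card_le_card h1).trans (Finset.card_union_le _ _)
    rw [Nat.card_Icc, Nat.add_sub_cancel] at h3
    have h4 : (S.card : ℝ) ≤ (Nat.sqrt X : ℝ) + (S.filter (fun x => Nat.sqrt X < x)).card := by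
      exact_mod_cast h3
    have h5 : (Nat.sqrt X : ℝ) ≤ Real.sqrt X := Real.nat_sqrt_le_real_sqrt
    linarith
  -- the number of prime factors of the others
  have h3 : ∀ x ∈ S.filter (fun x => Nat.sqrt X < x), Real.exp (c * Real.sqrt L) ≤
      (2 : ℝ) ^ x.primeFactors.card := by
    intro x hx
    obtain ⟨hx1, hx2⟩ := Finset.mem_filter.1 hx
    obtain ⟨hx3, hsq, hp⟩ := Finset.mem_filter.1 hx1
    have hx0 : 0 < x := (Finset.mem_Icc.1 hx3).1
    have hx0R : (0 : ℝ) < x := by exact_mod_cast hx0
    have e1 : X < x * x := Nat.sqrt_lt.1 hx2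
    have e2 : L ≤ 2 * Real.log x := by
      have e3 : (X : ℝ) ≤ x * x := by exact_mod_cast e1.le
      have e4 := Real.log_le_log hX0 e3
      rw [Real.log_mul hx0R.ne' hx0R.ne'] at e4
      linarith
    have e5 : (x : ℝ) ≤ (z : ℝ) ^ x.primeFactors.card := by
      have e6 : x ≤ z ^ x.primeFactors.card := by
        conv_lhs => rw [← Nat.prod_primeFactors_of_squarefree hsq]
        exact Finset.prod_le_pow_card _ _ _ hp
      exact_mod_cast e6
    have e7 : (x : ℝ) ≤ (2 * Real.exp (Real.sqrt L)) ^ x.primeFactors.card :=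
      e5.trans (pow_le_pow_left₀ (Nat.cast_nonneg z) hz _)
    have e8 : Real.log x ≤ x.primeFactors.card * (Real.log 2 + Real.sqrt L) := by
      have e9 := Real.log_le_log hx0R e7
      rw [Real.log_pow, Real.log_mul (by norm_num) (Real.exp_pos _).ne', Real.log_exp] at e9
      exact e9
    have e10 : Real.log 2 ≤ 1 := by
      have := Real.log_two_lt_d9
      linarith
    have e11 : Real.log x ≤ x.primeFactors.card * (2 * Real.sqrt L) := by
      refine e8.trans (mul_le_mul_of_nonneg_left (by linarith) (Nat.cast_nonneg _))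
    have e12 : Real.sqrt L / 4 ≤ x.primeFactors.card := by
      have e13 : Real.sqrt L * Real.sqrt L ≤ 4 * x.primeFactors.card * Real.sqrt L := by
        rw [hss]
        linarith
      have e14 := le_of_mul_le_mul_right e13 hs0
      linarith
    have e15 : (2 : ℝ) ^ x.primeFactors.card = Real.exp (Real.log 2 * x.primeFactors.card) := by
      rw [mul_comm, Real.exp_nat_mul, Real.exp_log (by norm_num)]
    rw [e15]
    apply Real.exp_le_exp.2
    have e16 : c * Real.sqrt L = Real.log 2 * (Real.sqrt L / 4) := by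
      rw [hc]; ring
    rw [e16]
    exact mul_le_mul_of_nonneg_left e12 (Real.log_nonneg (by norm_num))
  have h4 : ((S.filter (fun x => Nat.sqrt X < x)).card : ℝ) * Real.exp (c * Real.sqrt L) ≤
      X * (1 + L) := by
    rw [← nsmul_eq_mul, ← Finset.sum_const]
    refine (Finset.sum_le_sum h3).trans ((Finset.sum_le_sum_of_subset_of_nonneg ?_ ?_).trans
      (sum_two_pow X))
    · exact (Finset.filter_subset _ _).trans (Finset.filter_subset _ _)
    · intro _ _ _
      positivity
  have h5 : (c * Real.sqrt L) ^ n / n.factorial ≤ Real.exp (c * Real.sqrt L) :=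
    Real.pow_div_factorial_le_exp _ (by positivity) n
  have h6 : (c * Real.sqrt L) ^ n = c ^ n * L ^ (B + 1) := by
    rw [mul_pow, hn, pow_mul (Real.sqrt L), Real.sq_sqrt hL0.le]
  rw [h6] at h5
  set M : ℝ := ((S.filter (fun x => Nat.sqrt X < x)).card : ℝ) with hM
  have hM0 : 0 ≤ M := Nat.cast_nonneg _
  have h7 : M * (c ^ n * L ^ (B + 1) / n.factorial) ≤ X * (1 + L) :=
    (mul_le_mul_of_nonneg_left h5 hM0).trans h4
  have h8 : M ≤ 2 * n.factorial / c ^ n * (X / L ^ B) := by
    have h9 : M * (c ^ n * L ^ (B + 1)) ≤ X * (1 + L) * n.factorial := by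
      rw [mul_div_assoc', div_le_iff₀ (by positivity)] at h7
      exact h7
    have h10 : X * (1 + L) * (n.factorial : ℝ) ≤ X * (2 * L) * n.factorial := by
      have : X * (1 + L) ≤ X * (2 * L) := mul_le_mul_of_nonneg_left (by linarith) hX0.le
      exact mul_le_mul_of_nonneg_right this (Nat.cast_nonneg _)
    have h11 : (M * (c ^ n * L ^ B)) * L ≤ (2 * n.factorial * X) * L := by
      calc (M * (c ^ n * L ^ B)) * L = M * (c ^ n * L ^ (B + 1)) := by ring
        _ ≤ X * (2 * L) * n.factorial := h9.trans h10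
        _ = _ := by ring
    have h12 := le_of_mul_le_mul_right h11 hL0
    rw [div_mul_div_comm, le_div_iff₀ (by positivity)]
    exact h12
  have h9 : Real.sqrt X ≤ 2 ^ B * B.factorial * (X / L ^ B) := by
    rw [mul_div_assoc', le_div_iff₀ (by positivity)]
    exact sqrt_log B (by omega)
  rw [add_mul]
  linarith

/-- numbers composed of primes at most `Q` -/
lemma tiny_count (Q Y : ℕ) :
    (((Icc 1 Y).filter fun x => Squarefree x ∧ lp x ≤ Q).card : ℝ) ≤ 2 ^ (Q + 1) := by
  classical
  have h : ((Icc 1 Y).filter fun x => Squarefree x ∧ lp x ≤ Q).card ≤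
      (range (Q + 1)).powerset.card := by
    refine Finset.card_le_card_of_injOn (fun x => x.primeFactors) ?_ ?_
    · intro x hx
      have h1 := Finset.mem_filter.1 hx
      simp only [Finset.coe_powerset, Set.mem_preimage, Set.mem_powerset_iff, Finset.coe_subset]
      intro p hp
      rw [Finset.mem_range]
      have := le_lp hp
      have := h1.2.2
      omega
    · intro x hx y hy hxy
      have h1 := (Finset.mem_filter.1 hx).2.1
      have h2 := (Finset.mem_filter.1 hy).2.1
      rw [← Nat.prod_primeFactors_of_squarefree h1, ← Nat.prod_primeFactors_of_squarefree h2]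
      exact congrArg (fun T : Finset ℕ => ∏ q ∈ T, q) hxy
  rw [Finset.card_powerset, Finset.card_range] at h
  exact_mod_cast h

end Pool.Agent.Q160.GL
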