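import Pool.Agent.Q160.GL.Lpf

/-!
# The sum of a character over a set determined by the largest prime factor
-/

set_option autoImplicit false

open Finset

namespace Pool.Agent.Q160.GL

/-- the sum over the primes `p ≤ t` -/
noncomputable def PT (f : ℕ → ℝ) (t : ℕ) : ℝ := ∑ p ∈ (Icc 1 t).filter Nat.Prime, f p

/-- the sum over the primes of an interval -/
lemma interval_sum (f : ℕ → ℝ) {M : ℝ} (hM0 : 0 ≤ M) (V L : ℕ) (hM : ∀ t ≤ V, |PT f t| ≤ M)
    (I : Set ℕ) (hI : I.OrdConnected) [DecidablePred (· ∈ I)] :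
    |∑ p ∈ (Icc 1 V).filter (fun p => p.Prime ∧ L < p ∧ p ∈ I), f p| ≤ 2 * M := by
  classical
  set F := (Icc 1 V).filter (fun p => p.Prime ∧ L < p ∧ p ∈ I) with hF
  rcases F.eq_empty_or_nonempty with h | h
  · rw [h, Finset.sum_empty, abs_zero]
    positivity
  · set a := F.min' h with ha
    set b := F.max' h with hb
    have haF : a ∈ F := F.min'_mem h
    have hbF : b ∈ F := F.max'_mem h
    obtain ⟨ha1, ha2, ha3, ha4⟩ := Finset.mem_filter.1 haF
    obtain ⟨hb1, hb2, hb3, hb4⟩ := Finset.mem_filter.1 hbF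
    rw [Finset.mem_Icc] at ha1 hb1
    have hab : a ≤ b := F.min'_le b hbF
    have h1 : (Icc 1 b).filter Nat.Prime = (Icc 1 (a - 1)).filter Nat.Prime ∪ F := by
      ext p
      rw [Finset.mem_union, Finset.mem_filter, Finset.mem_filter, Finset.mem_filter,
        Finset.mem_Icc, Finset.mem_Icc, Finset.mem_Icc]
      constructor
      · rintro ⟨⟨h1, h2⟩, h3⟩
        by_cases h4 : p ≤ a - 1
        · exact Or.inl ⟨⟨h1, h4⟩, h3⟩
        · refine Or.inr ⟨⟨h1, by omega⟩, h3, by omega, hI.out ha4 hb4 ⟨by omega, h2⟩⟩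
      · rintro (⟨⟨h1, h2⟩, h3⟩ | ⟨⟨h1, h2⟩, h3, h4, h5⟩)
        · exact ⟨⟨h1, by omega⟩, h3⟩
        · refine ⟨⟨h1, ?_⟩, h3⟩
          exact F.le_max' p (Finset.mem_filter.2 ⟨Finset.mem_Icc.2 ⟨h1, h2⟩, h3, h4, h5⟩)
    have h2 : Disjoint ((Icc 1 (a - 1)).filter Nat.Prime) F := by
      rw [Finset.disjoint_left]
      intro p hp hpF
      have h3 := (Finset.mem_Icc.1 (Finset.mem_filter.1 hp).1).2
      have h4 := F.min'_le p hpF
      rw [← ha] at h4
      omega
    have h3 : PT f b = PT f (a - 1) + ∑ p ∈ F, f p := by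
      unfold PT
      rw [h1, Finset.sum_union h2]
    have h4 := hM b hb1.2
    have h5 := hM (a - 1) (by omega)
    have h6 : ∑ p ∈ F, f p = PT f b - PT f (a - 1) := by linarith
    rw [h6]
    exact (abs_sub _ _).trans (by linarith)

/-- the fibre of a cofactor -/
lemma fibre (f : ℕ → ℝ) (hmul : ∀ m n : ℕ, m ≠ 0 → n ≠ 0 → f (m * n) = f m * f n)
    (hf1 : ∀ n, |f n| ≤ 1) {Q : ℕ} (Y j k z : ℕ) (hj : 1 ≤ j) (hjQ : j ≤ Q)
    {M : ℝ} (hM0 : 0 ≤ M) (hM : z ≤ Y / k → ∀ t ≤ Y / k, |PT f t| ≤ M) (I : ℕ → Set ℕ)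
    (hI : ∀ k, (I k).OrdConnected) [DecidablePred fun x => InS I (j * x)]
    [∀ k, DecidablePred (· ∈ I k)] :
    |∑ x ∈ ((Icc 1 Y).filter (fun x => (Squarefree x ∧ x.Coprime Q ∧ InS I (j * x)) ∧
      (¬ lp x ≤ Q) ∧ z ≤ Y / (x / lp x))).filter (fun x => x / lp x = k), f x| ≤ 2 * M := by
  classical
  set F := ((Icc 1 Y).filter (fun x => (Squarefree x ∧ x.Coprime Q ∧ InS I (j * x)) ∧
      (¬ lp x ≤ Q) ∧ z ≤ Y / (x / lp x))).filter (fun x => x / lp x = k) with hF
  rcases F.eq_empty_or_nonempty with h | ⟨x0, hx0⟩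
  · rw [h, Finset.sum_empty, abs_zero]
    positivity
  -- the data of a member
  have key : ∀ x ∈ F, (lp x).Prime ∧ Q < lp x ∧ x = k * lp x ∧ lp k < lp x ∧ lp x ≤ Y / k ∧
      lp x ∈ I (j * k) ∧ Squarefree k ∧ k.Coprime Q ∧ z ≤ Y / k ∧ 0 < k := by
    intro x hx
    obtain ⟨hx1, hxk⟩ := Finset.mem_filter.1 hx
    obtain ⟨hx2, ⟨hsq, hcop, hin⟩, hQ, hz⟩ := Finset.mem_filter.1 hx1
    rw [Finset.mem_Icc] at hx2
    push Not at hQ
    have hx3 : 1 < x := one_lt_of_lp hQ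
    have hmem := lp_mem hx3
    obtain ⟨hp, hdvd, -⟩ := Nat.mem_primeFactors.1 hmem
    have he : x = k * lp x := by
      rw [← hxk]
      exact (Nat.div_mul_cancel hdvd).symm
    have hk0 : 0 < k := by
      rcases Nat.eq_zero_or_pos k with h | h
      · rw [h, zero_mul] at he; omega
      · exact h
    have hkx : k ∣ x := ⟨lp x, he⟩
    have hnot : ¬ lp x ∣ k := by
      intro h
      have h1 : lp x * lp x ∣ x := by
        rw [mul_comm k] at he
        conv_rhs => rw [he]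
        exact mul_dvd_mul_left _ h
      exact hp.one_lt.ne' (Nat.isUnit_iff.1 (hsq _ h1))
    have hlpk : lp k < lp x := by
      by_cases hk1 : 1 < k
      · have h1 := lp_mem hk1
        obtain ⟨h2, h3, -⟩ := Nat.mem_primeFactors.1 h1
        have h4 : lp k ≤ lp x := le_lp (Nat.mem_primeFactors.2 ⟨h2, h3.trans hkx, by omega⟩)
        rcases h4.lt_or_eq with h5 | h5
        · exact h5
        · exact absurd (h5 ▸ h3) hnot
      · have : k = 1 := by omega
        rw [this, lp_one]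
        exact hp.pos
    have hle : lp x ≤ Y / k := by
      rw [Nat.le_div_iff_mul_le hk0, mul_comm, ← he]
      exact hx2.2
    have hjx : lp (j * x) = lp x := by
      rw [he, ← mul_assoc]
      have e : lp x = lp (k * lp x) := congrArg lp he
      rw [← e]
      refine lp_mul (mul_ne_zero (by omega) hk0.ne') hp ?_
      intro q hq
      obtain ⟨g1, g2, -⟩ := Nat.mem_primeFactors.1 hq
      rcases g1.dvd_mul.1 g2 with g3 | g3
      · exact ((Nat.le_of_dvd (by omega) g3).trans hjQ).trans hQ.le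
      · exact (le_lp (Nat.mem_primeFactors.2 ⟨g1, g3, hk0.ne'⟩)).trans hlpk.le
    have hin' : lp x ∈ I (j * k) := by
      unfold InS at hin
      rw [hjx] at hin
      have e : j * x / lp x = j * k := by
        conv_lhs => rw [he, ← mul_assoc]
        have e : lp (k * lp x) = lp x := (congrArg lp he).symm
        rw [e]
        exact Nat.mul_div_cancel _ hp.pos
      rwa [e] at hin
    refine ⟨hp, hQ, he, hlpk, hle, hin', hsq.squarefree_of_dvd hkx, hcop.coprime_dvd_left hkx,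
      by rwa [hxk] at hz, hk0⟩
  obtain ⟨-, -, -, -, -, -, hksq, hkcop, hkz, hk0⟩ := key x0 hx0
  have hsum : ∑ x ∈ F, f x = f k *
      ∑ p ∈ (Icc 1 (Y / k)).filter (fun p => p.Prime ∧ max Q (lp k) < p ∧ p ∈ I (j * k)), f p := by
    rw [Finset.mul_sum]
    refine Finset.sum_bij (fun x _ => lp x) ?_ ?_ ?_ ?_
    · intro x hx
      obtain ⟨g1, g2, g3, g4, g5, g6, -⟩ := key x hx
      rw [Finset.mem_filter, Finset.mem_Icc]
      exact ⟨⟨g1.one_lt.le, g5⟩, g1, max_lt g2 g4, g6⟩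
    · intro x hx y hy hxy
      obtain ⟨-, -, g3, -⟩ := key x hx
      obtain ⟨-, -, g3', -⟩ := key y hy
      have hxy' : lp x = lp y := hxy
      rw [g3, g3', hxy']
    · intro p hp
      obtain ⟨g1, g2, g3, g4⟩ := Finset.mem_filter.1 hp
      rw [Finset.mem_Icc] at g1
      have g5 : Q < p := (le_max_left _ _).trans_lt g3
      have g6 : lp k < p := (le_max_right _ _).trans_lt g3
      have g7 : lp (k * p) = p := lp_mul hk0.ne' g2 fun q hq => (le_lp hq).trans g6.le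
      have g8 : k * p / p = k := Nat.mul_div_cancel _ g2.pos
      have g9 : ¬ p ∣ k := by
        intro h
        have := le_lp (Nat.mem_primeFactors.2 ⟨g2, h, hk0.ne'⟩)
        omega
      have g10 : Nat.Coprime k p := ((Nat.Prime.coprime_iff_not_dvd g2).2 g9).symm
      have g11 : Squarefree (k * p) := (Nat.squarefree_mul g10).2 ⟨hksq, g2.squarefree⟩
      have hQ0 : 0 < Q := by omega
      have g12 : Nat.Coprime (k * p) Q := by
        refine Nat.Coprime.mul_left hkcop ?_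
        exact (Nat.Prime.coprime_iff_not_dvd g2).2 fun h => by
          have := Nat.le_of_dvd hQ0 h
          omega
      have g13 : lp (j * (k * p)) = p := by
        rw [← mul_assoc]
        refine lp_mul (mul_ne_zero (by omega) hk0.ne') g2 ?_
        intro q hq
        obtain ⟨k1, k2, -⟩ := Nat.mem_primeFactors.1 hq
        rcases k1.dvd_mul.1 k2 with k3 | k3
        · exact ((Nat.le_of_dvd (by omega) k3).trans hjQ).trans g5.le
        · exact (le_lp (Nat.mem_primeFactors.2 ⟨k1, k3, hk0.ne'⟩)).trans g6.le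
      have g14 : InS I (j * (k * p)) := by
        unfold InS
        rw [g13, ← mul_assoc, Nat.mul_div_cancel _ g2.pos]
        exact g4
      refine ⟨k * p, ?_, g7⟩
      rw [hF, Finset.mem_filter, Finset.mem_filter, Finset.mem_Icc, g7, g8]
      refine ⟨⟨⟨Nat.mul_pos hk0 g2.pos, ?_⟩, ⟨g11, g12, g14⟩, by omega, hkz⟩, rfl⟩
      have := (Nat.le_div_iff_mul_le hk0).1 g1.2
      rw [mul_comm]
      exact this
    · intro x hx
      obtain ⟨g1, -, g3, -, -, -, -, -, -, -⟩ := key x hx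
      conv_lhs => rw [g3]
      exact hmul k (lp x) hk0.ne' g1.ne_zero
  rw [hsum, abs_mul]
  have h1 := interval_sum f hM0 (Y / k) (max Q (lp k)) (hM hkz) (I (j * k)) (hI (j * k))
  calc |f k| * |∑ p ∈ (Icc 1 (Y / k)).filter (fun p => p.Prime ∧ max Q (lp k) < p ∧ p ∈ I (j * k)),
        f p| ≤ 1 * (2 * M) := mul_le_mul (hf1 k) h1 (abs_nonneg _) zero_le_one
    _ = 2 * M := one_mul _

/-- the condition on the sums over primes -/
def PrimeSmall (f : ℕ → ℝ) : Prop := ∀ U : ℕ, ∃ C : ℝ, 0 ≤ C ∧ ∀ V : ℕ, 3 ≤ V → ∀ t ≤ V,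
  |PT f t| ≤ C * (V / Real.log V ^ U)

open Classical in
/-- **the sum over a set determined by the largest prime factor** -/
theorem lpf_sum (f : ℕ → ℝ) (hmul : ∀ m n : ℕ, m ≠ 0 → n ≠ 0 → f (m * n) = f m * f n)
    (hf1 : ∀ n, |f n| ≤ 1) (hT : PrimeSmall f) (Q B : ℕ) : ∃ C : ℝ, 0 ≤ C ∧
    ∀ X : ℕ, 3 ≤ X → ∀ Y ≤ X, ∀ j : ℕ, 1 ≤ j → j ≤ Q → ∀ I : ℕ → Set ℕ,
      (∀ k, (I k).OrdConnected) →
      |∑ x ∈ (Icc 1 Y).filter (fun x => Squarefree x ∧ x.Coprime Q ∧ InS I (j * x)), f x| ≤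
        C * (X / Real.log X ^ B) := by
  obtain ⟨C1, hC1, h1⟩ := hT (2 * (B + 1))
  obtain ⟨C2, hC2, h2⟩ := smooth_count B
  refine ⟨2 ^ (Q + 1) * B.factorial + C2 + 4 * C1, by positivity, fun X hX Y hY j hj hjQ I hI => ?_⟩
  have hL1 := one_le_log hX
  set L : ℝ := Real.log X with hL
  have hL0 : 0 < L := by linarith
  have hX0 : (0 : ℝ) < X := by exact_mod_cast (by omega : 0 < X)
  have hs1 : 1 ≤ Real.sqrt L := Real.one_le_sqrt.2 hL1
  set z : ℕ := ⌈Real.exp (Real.sqrt L)⌉₊ + 1 with hz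
  have hexp : Real.exp 1 ≤ Real.exp (Real.sqrt L) := Real.exp_le_exp.2 hs1
  have hexp2 := Real.exp_one_gt_d9
  have hz1 : Real.exp (Real.sqrt L) ≤ z := by
    rw [hz]
    push_cast
    have := Nat.le_ceil (Real.exp (Real.sqrt L))
    linarith
  have hz3 : 3 ≤ z := by
    have h3 : (2 : ℝ) < ⌈Real.exp (Real.sqrt L)⌉₊ := by
      have := Nat.le_ceil (Real.exp (Real.sqrt L))
      linarith
    have h4 : 2 < ⌈Real.exp (Real.sqrt L)⌉₊ := by exact_mod_cast h3
    omega
  have hz2 : ((z - 1 : ℕ) : ℝ) ≤ 2 * Real.exp (Real.sqrt L) := by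
    rw [hz, Nat.add_sub_cancel]
    have := Nat.ceil_lt_add_one (Real.exp_pos (Real.sqrt L)).le
    linarith
  set A := (Icc 1 Y).filter (fun x => Squarefree x ∧ x.Coprime Q ∧ InS I (j * x)) with hA
  set g : ℕ → Prop := fun x => z ≤ Y / (x / lp x) with hg
  have hsplit : ∑ x ∈ A, f x = ∑ x ∈ A.filter (fun x => lp x ≤ Q), f x +
      (∑ x ∈ (A.filter (fun x => ¬ lp x ≤ Q)).filter (fun x => ¬ g x), f x +
        ∑ x ∈ (A.filter (fun x => ¬ lp x ≤ Q)).filter g, f x) := by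
    rw [← Finset.sum_filter_add_sum_filter_not A (fun x => lp x ≤ Q),
      ← Finset.sum_filter_add_sum_filter_not (A.filter (fun x => ¬ lp x ≤ Q)) g]
    ring
  have hcard : ∀ S : Finset ℕ, |∑ x ∈ S, f x| ≤ S.card := by
    intro S
    refine (Finset.abs_sum_le_sum_abs _ _).trans ((Finset.sum_le_sum fun x _ => hf1 x).trans ?_)
    rw [Finset.sum_const, nsmul_eq_mul, mul_one]
  -- the tiny part
  have ht1 : |∑ x ∈ A.filter (fun x => lp x ≤ Q), f x| ≤
      2 ^ (Q + 1) * B.factorial * (X / L ^ B) := by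
    have h3 : A.filter (fun x => lp x ≤ Q) ⊆ (Icc 1 Y).filter fun x => Squarefree x ∧ lp x ≤ Q := by
      intro x hx
      obtain ⟨hx1, hx2⟩ := Finset.mem_filter.1 hx
      obtain ⟨hx3, hx4⟩ := Finset.mem_filter.1 hx1
      exact Finset.mem_filter.2 ⟨hx3, hx4.1, hx2⟩
    refine (hcard _).trans ?_
    have h4 : ((A.filter (fun x => lp x ≤ Q)).card : ℝ) ≤ 2 ^ (Q + 1) :=
      (Nat.cast_le.2 (Finset.card_le_card h3)).trans (tiny_count Q Y)
    refine h4.trans ?_
    have h5 := log_pow_le B (show 1 ≤ X by omega)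
    rw [← hL] at h5
    rw [mul_assoc]
    refine le_mul_of_one_le_right (by positivity) ?_
    rw [mul_div_assoc', le_div_iff₀ (by positivity), one_mul]
    exact h5
  -- the smooth part
  have ht2 : |∑ x ∈ (A.filter (fun x => ¬ lp x ≤ Q)).filter (fun x => ¬ g x), f x| ≤
      C2 * (X / L ^ B) := by
    refine (hcard _).trans (le_trans ?_ (h2 X hX (z - 1) hz2))
    refine Nat.cast_le.2 (Finset.card_le_card ?_)
    intro x hx
    obtain ⟨hx1, hx2⟩ := Finset.mem_filter.1 hx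
    obtain ⟨hx3, hx4⟩ := Finset.mem_filter.1 hx1
    obtain ⟨hx5, hx6, -⟩ := Finset.mem_filter.1 hx3
    rw [Finset.mem_Icc] at hx5
    refine Finset.mem_filter.2 ⟨Finset.mem_Icc.2 ⟨hx5.1, hx5.2.trans hY⟩, hx6, fun p hp => ?_⟩
    have h3 : p ≤ lp x := le_lp hp
    push Not at hx4
    have h4 : 1 < x := one_lt_of_lp hx4
    have h5 := Nat.dvd_of_mem_primeFactors (lp_mem h4)
    have h6 : 0 < x / lp x := Nat.div_pos (Nat.le_of_dvd (by omega) h5) (by omega)
    have h7 : lp x ≤ Y / (x / lp x) := by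
      rw [Nat.le_div_iff_mul_le h6, mul_comm, Nat.div_mul_cancel h5]
      exact hx5.2
    have h8 : Y / (x / lp x) < z := not_le.1 hx2
    omega
  -- the main part
  have ht3 : |∑ x ∈ (A.filter (fun x => ¬ lp x ≤ Q)).filter g, f x| ≤ 4 * C1 * (X / L ^ B) := by
    set A1 := (A.filter (fun x => ¬ lp x ≤ Q)).filter g with hA1
    have hA1' : A1 = (Icc 1 Y).filter (fun x => (Squarefree x ∧ x.Coprime Q ∧ InS I (j * x)) ∧
      (¬ lp x ≤ Q) ∧ z ≤ Y / (x / lp x)) := by
      rw [hA1, hA, Finset.filter_filter, Finset.filter_filter]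
    have hmaps : ∀ x ∈ A1, x / lp x ∈ Icc 1 X := by
      intro x hx
      rw [hA1'] at hx
      obtain ⟨hx1, -, hx3, -⟩ := Finset.mem_filter.1 hx
      rw [Finset.mem_Icc] at hx1
      push Not at hx3
      have h4 : 1 < x := one_lt_of_lp hx3
      have h5 := Nat.dvd_of_mem_primeFactors (lp_mem h4)
      rw [Finset.mem_Icc]
      refine ⟨Nat.div_pos (Nat.le_of_dvd (by omega) h5) (by omega), ?_⟩
      exact (Nat.div_le_self _ _).trans (hx1.2.trans hY)
    rw [← Finset.sum_fiberwise_of_maps_to hmaps]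
    refine (Finset.abs_sum_le_sum_abs _ _).trans ?_
    have hk : ∀ k ∈ Icc 1 X, |∑ x ∈ A1.filter (fun x => x / lp x = k), f x| ≤
        2 * (C1 * (X / L ^ (B + 1)) * (k : ℝ)⁻¹) := by
      intro k hk
      have hk0 : 0 < k := (Finset.mem_Icc.1 hk).1
      have hk0R : (0 : ℝ) < k := by exact_mod_cast hk0
      rw [hA1']
      refine fibre f hmul hf1 Y j k z hj hjQ (by positivity) (fun hzY t ht => ?_) I hI
      refine (h1 (Y / k) (hz3.trans hzY) t ht).trans ?_
      have e1 : Real.sqrt L ≤ Real.log ((Y / k : ℕ) : ℝ) := by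
        rw [Real.le_log_iff_exp_le (by exact_mod_cast (by omega : 0 < Y / k))]
        exact hz1.trans (by exact_mod_cast hzY)
      have e2 : L ^ (B + 1) ≤ Real.log ((Y / k : ℕ) : ℝ) ^ (2 * (B + 1)) := by
        calc L ^ (B + 1) = Real.sqrt L ^ (2 * (B + 1)) := by
              rw [pow_mul, Real.sq_sqrt hL0.le]
          _ ≤ _ := pow_le_pow_left₀ (by linarith) e1 _
      have e3 : ((Y / k : ℕ) : ℝ) ≤ X * (k : ℝ)⁻¹ := by
        rw [← div_eq_mul_inv]
        refine Nat.cast_div_le.trans ?_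
        exact div_le_div_of_nonneg_right (by exact_mod_cast hY) hk0R.le
      calc C1 * (((Y / k : ℕ) : ℝ) / Real.log ((Y / k : ℕ) : ℝ) ^ (2 * (B + 1))) ≤
          C1 * ((X * (k : ℝ)⁻¹) / L ^ (B + 1)) := by
            refine mul_le_mul_of_nonneg_left ?_ hC1
            exact div_le_div₀ (by positivity) e3 (by positivity) e2
        _ = _ := by ring
    refine (Finset.sum_le_sum hk).trans ?_
    rw [← Finset.mul_sum, ← Finset.mul_sum]
    have h5 := harmonic_le_one_add_log X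
    rw [harmonic_eq_sum_Icc] at h5
    push_cast at h5
    rw [← hL] at h5
    have h6 : ∑ k ∈ Icc 1 X, (k : ℝ)⁻¹ ≤ 2 * L := by linarith
    calc 2 * (C1 * (X / L ^ (B + 1)) * ∑ k ∈ Icc 1 X, (k : ℝ)⁻¹) ≤
        2 * (C1 * (X / L ^ (B + 1)) * (2 * L)) := by
          refine mul_le_mul_of_nonneg_left ?_ (by norm_num)
          exact mul_le_mul_of_nonneg_left h6 (by positivity)
      _ = 4 * C1 * (X / L ^ B) := by
          rw [pow_succ]
          field_simp
          ring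
  rw [hsplit]
  have h3 := abs_add_le (∑ x ∈ A.filter (fun x => lp x ≤ Q), f x)
    (∑ x ∈ (A.filter (fun x => ¬ lp x ≤ Q)).filter (fun x => ¬ g x), f x +
        ∑ x ∈ (A.filter (fun x => ¬ lp x ≤ Q)).filter g, f x)
  have h4 := abs_add_le (∑ x ∈ (A.filter (fun x => ¬ lp x ≤ Q)).filter (fun x => ¬ g x), f x)
    (∑ x ∈ (A.filter (fun x => ¬ lp x ≤ Q)).filter g, f x)
  have h5 : (2 ^ (Q + 1) * B.factorial + C2 + 4 * C1) * (X / L ^ B) =
      2 ^ (Q + 1) * B.factorial * (X / L ^ B) + C2 * (X / L ^ B) + 4 * C1 * (X / L ^ B) := by ring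
  rw [h5]
  linarith

end Pool.Agent.Q160.GL
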