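import Pool.Agent.Q160.GL.Jac
import Pool.Agent.Y763.QTP.Cnt

/-!
# The signs of the functional equations over sets determined by the largest prime factor
-/

set_option autoImplicit false

open Finset

namespace Pool.Agent.Q160.GL

open Pool.Agent.Y19.QT
open Pool.Agent.Y763.QTP
open Pool.Agent.H306R2.RZ (js)

open Classical in
/-- **the sum of the signs** -/
theorem sum_w_set {Q : ℕ} {lam : ℕ → ℝ} (T : Twists Q lam) (hT : Sgn T) (B : ℕ) :
    ∃ C : ℝ, 0 ≤ C ∧ ∀ X : ℕ, 3 ≤ X → ∀ I : ℕ → Set ℕ, (∀ k, (I k).OrdConnected) →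
      |∑ d ∈ (sqf X).filter (fun d => InS I d.natAbs), T.w d| ≤ C * (X / Real.log X ^ B) := by
  obtain ⟨h2, N, w0, m, g, hd⟩ := hT
  have hQ0 : 0 < Q := T.hecke.pos
  have hns : ∀ n : ℕ, 0 < n → ¬ IsSquare (-(n : ℤ)) := by
    rintro n hn ⟨r, hr⟩
    have := mul_self_nonneg r
    omega
  have hj : ∀ j : ℤ, ∃ C : ℝ, 0 ≤ C ∧ (0 < N j → ∀ X : ℕ, 3 ≤ X → ∀ Y ≤ X, ∀ i : ℕ, 1 ≤ i → i ≤ Q →
      ∀ I : ℕ → Set ℕ, (∀ k, (I k).OrdConnected) →
      |∑ x ∈ (Icc 1 Y).filter (fun x => Squarefree x ∧ x.Coprime Q ∧ InS I (i * x)),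
        jc (-(N j : ℤ)) x| ≤ C * (X / Real.log X ^ B)) := by
    intro j
    by_cases h : 0 < N j
    · obtain ⟨C, hC, h1⟩ := jac_sum (-(N j : ℤ)) (hns _ h) Q B
      exact ⟨C, hC, fun _ => h1⟩
    · exact ⟨0, le_rfl, fun h' => absurd h' h⟩
  choose C hC hCj using hj
  refine ⟨∑ j ∈ Icc (-(Q : ℤ)) Q, C j, Finset.sum_nonneg fun j _ => hC j, fun X hX I hI => ?_⟩
  have hL1 := GL.one_le_log hX
  have hR : 0 ≤ (X : ℝ) / Real.log X ^ B := by positivity
  set SX := (sqf X).filter (fun d => InS I d.natAbs) with hSX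
  have hsub : ∀ d ∈ SX, d ∈ sqf X := fun d h => (Finset.mem_filter.1 h).1
  have hmaps : ∀ d ∈ SX, g d ∈ Icc (-(Q : ℤ)) Q := by
    intro d hdX
    rw [Finset.mem_Icc]
    exact abs_le.1 (hd d (mem_sqf.1 (hsub d hdX)).2).1.2.2.2.2.2.2
  rw [← Finset.sum_fiberwise_of_maps_to hmaps, Finset.sum_mul]
  refine (Finset.abs_sum_le_sum_abs _ _).trans (Finset.sum_le_sum fun j _ => ?_)
  rcases (SX.filter fun d => g d = j).eq_empty_or_nonempty with he | ⟨d0, hd0⟩
  · rw [he, Finset.sum_empty, abs_zero]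
    exact mul_nonneg (hC j) hR
  · rw [Finset.mem_filter] at hd0
    obtain ⟨hd0X, hd0g⟩ := hd0
    have hs0 : Squarefree d0 := (mem_sqf.1 (hsub _ hd0X)).2
    obtain ⟨⟨he0, hodd0, hsq0, hcop0, hg0, hgQ0, hgle0⟩, hN0, hw0, -⟩ := hd d0 hs0
    rw [hd0g] at he0 hg0 hgQ0 hN0 hw0 hgle0
    have hjsq : Squarefree j := by
      have h3 : j ∣ d0 := by rw [he0]; exact dvd_mul_right _ _
      exact hs0.squarefree_of_dvd h3
    have hjp : 0 < j.natAbs := Int.natAbs_pos.2 hg0
    have hjQ : j.natAbs ≤ Q := by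
      rw [Int.abs_eq_natAbs] at hgle0
      exact_mod_cast hgle0
    have hsum : ∑ d ∈ SX.filter (fun d => g d = j), T.w d =
        w0 j * ∑ x ∈ (Icc 1 (X / j.natAbs)).filter
          (fun x => Squarefree x ∧ x.Coprime Q ∧ InS I (j.natAbs * x)), jc (-(N j : ℤ)) x := by
      rw [Finset.mul_sum]
      refine Finset.sum_bij (fun d _ => m d) ?_ ?_ ?_ ?_
      · intro d hdm
        rw [Finset.mem_filter] at hdm
        obtain ⟨hdS, hdg⟩ := hdm
        obtain ⟨hdX, hdI⟩ := Finset.mem_filter.1 hdS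
        obtain ⟨hle, hs⟩ := mem_sqf.1 hdX
        obtain ⟨⟨he, hodd, hsq, hcop, -, -, -⟩, -⟩ := hd d hs
        rw [hdg] at he
        have h3 := congrArg Int.natAbs he
        rw [Int.natAbs_mul, Int.natAbs_mul, chi_abs hodd, one_mul, Int.natAbs_natCast] at h3
        rw [Finset.mem_filter, Finset.mem_Icc]
        refine ⟨⟨hodd.pos, ?_⟩, hsq, hcop, ?_⟩
        · rw [Nat.le_div_iff_mul_le hjp]
          have h4 : (d.natAbs : ℤ) ≤ X := by rw [← Int.abs_eq_natAbs]; exact hle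
          have h5 : d.natAbs ≤ X := by exact_mod_cast h4
          rw [mul_comm, ← h3]
          exact h5
        · rw [← h3]
          exact hdI
      · intro d1 h1 d2 h2' heq
        rw [Finset.mem_filter] at h1 h2'
        obtain ⟨⟨he1, -⟩, -⟩ := hd d1 (mem_sqf.1 (hsub _ h1.1)).2
        obtain ⟨⟨he2, -⟩, -⟩ := hd d2 (mem_sqf.1 (hsub _ h2'.1)).2
        rw [he1, he2, h1.2, h2'.2]
        have heq' : m d1 = m d2 := heq
        rw [heq']
      · intro x hx
        rw [Finset.mem_filter, Finset.mem_Icc] at hx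
        obtain ⟨⟨hx1, hx2⟩, hxs, hxc, hxI⟩ := hx
        have hxo : Odd x := odd_of_cop h2 hxc
        set d : ℤ := j * (ZMod.χ₄ x * x) with hdef
        have hdabs : d.natAbs = j.natAbs * x := by
          rw [hdef, Int.natAbs_mul, Int.natAbs_mul, chi_abs hxo, one_mul, Int.natAbs_natCast]
        have hcopjx : Nat.Coprime j.natAbs x := by
          refine Nat.coprime_of_dvd fun p hp h1 h3 => ?_
          have h4 := hgQ0 p hp (Int.natCast_dvd.2 h1)
          have h5 := Nat.dvd_gcd h3 h4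
          rw [hxc] at h5
          exact hp.ne_one (Nat.dvd_one.1 h5)
        have hdsq : Squarefree d := by
          rw [← Int.squarefree_natAbs, hdabs]
          exact (Nat.squarefree_mul hcopjx).2 ⟨Int.squarefree_natAbs.2 hjsq, hxs⟩
        have hdX : d ∈ sqf X := by
          rw [mem_sqf]
          refine ⟨?_, hdsq⟩
          rw [Int.abs_eq_natAbs, hdabs]
          have h3 : j.natAbs * x ≤ X := by
            rw [Nat.le_div_iff_mul_le hjp] at hx2
            rw [mul_comm]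
            exact hx2
          exact_mod_cast h3
        obtain ⟨⟨he, hodd, hsq, hcop, hg1, hgQ, -⟩, -⟩ := hd d hdsq
        obtain ⟨e1, e2⟩ := decomp_unique (Q := Q) (g := j) (g' := g d) hxo hodd hxc hcop hgQ0 hgQ
          (by rw [← he])
        refine ⟨d, ?_, e1.symm⟩
        rw [Finset.mem_filter]
        refine ⟨Finset.mem_filter.2 ⟨hdX, ?_⟩, e2.symm⟩
        rw [hdabs]
        exact hxI
      · intro d hdm
        rw [Finset.mem_filter] at hdm
        obtain ⟨hdX, hdg⟩ := hdm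
        obtain ⟨-, -, -, hw⟩ := hd d (mem_sqf.1 (hsub _ hdX)).2
        rw [hw, hdg]
        rfl
    rw [hsum, abs_mul]
    have hw1 : |w0 j| = 1 := by
      have h3 : |w0 j| ^ 2 = 1 := by rw [sq_abs, hw0]
      exact (pow_eq_one_iff_of_nonneg (abs_nonneg _) two_ne_zero).1 h3
    rw [hw1, one_mul]
    exact hCj j hN0 X hX (X / j.natAbs) (Nat.div_le_self _ _) j.natAbs hjp hjQ I hI

end Pool.Agent.Q160.GL
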